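import Pool.Agent.W870.PD.Stmts2
import Pool.Agent.W90.PD.Coarse

/-!
# From voids to percolation below `p` (bond percolation)
-/

set_option autoImplicit false
set_option linter.all false
set_option linter.deprecated false

open MeasureTheory Set Pool.Agent.H978R2 Pool.Agent.W804.HP

namespace Pool.Agent.W597.PD

open Pool.Agent.W870.PD

/-- exponent arithmetic -/
theorem rad_le (k A d : ℕ) (hk : 2 ≤ k) :
    rr k (8 * (k ^ A) ^ 50) ≤ k ^ (50 * A + 6 + 200 * d * A) := by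
  have h1 : 1 ≤ k ^ (50 * A) := Nat.one_le_pow _ _ (by omega)
  have e1 : (k ^ A) ^ 50 = k ^ (50 * A) := by rw [← pow_mul]; congr 1; ring
  have h2 : rr k (8 * (k ^ A) ^ 50) ≤ 2 ^ 5 * (k ^ (50 * A) * k) := by
    unfold rr
    rw [e1]
    nlinarith
  have h3 : (2 : ℕ) ^ 5 ≤ k ^ 5 := Nat.pow_le_pow_left hk 5
  have h4 : 2 ^ 5 * (k ^ (50 * A) * k) ≤ k ^ 5 * (k ^ (50 * A) * k) := Nat.mul_le_mul_right _ h3
  have h5 : k ^ 5 * (k ^ (50 * A) * k) = k ^ (50 * A + 6) := by ring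
  rw [h5] at h4
  have h6 : k ^ (50 * A + 6) ≤ k ^ (50 * A + 6 + 200 * d * A) :=
    Nat.pow_le_pow_right (by omega) (by omega)
  omega

theorem prob_le (k A d : ℕ) (hk : 2 ≤ k) :
    1 / (k : ℝ) ^ (50 * A + 6 + 200 * d * A) ≤ 1 / ((k ^ A : ℕ) : ℝ) ^ (200 * d) := by
  have hk1 : (1 : ℝ) ≤ k := by exact_mod_cast (by omega : 1 ≤ k)
  push_cast
  rw [← pow_mul]
  apply one_div_le_one_div_of_le (by positivity)
  apply pow_le_pow_right₀ hk1
  have : A * (200 * d) = 200 * d * A := by ring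
  omega

/-- decreasing the parameter a little keeps good boxes likely -/
theorem exists_lower {d : ℕ} {ι V : Type} (h3 : S_cont) (M : Geo d ι V) (t : ℕ) (p : NNReal)
    (hp : p ≤ 1) (hp0 : 0 < p) (hg : ∀ u : ℤ × ℤ, (bm ι p hp).real (M.Good t u)ᶜ ≤ 1 / 10 ^ 13) :
    ∃ (p' : NNReal) (hp' : p' ≤ 1), p' < p ∧
      ∀ u : ℤ × ℤ, (bm ι p' hp').real (M.Good t u)ᶜ ≤ 1 / 10 ^ 12 := by
  set K : ℕ := M.q * (2 * (12 * t) + 1) ^ d with hK
  have hp0' : (0 : ℝ) < p := by exact_mod_cast hp0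
  have hp1' : (p : ℝ) ≤ 1 := by exact_mod_cast hp
  set δ : ℝ := min ((p : ℝ) / 2) (1 / (10 ^ 13 * (K + 1))) with hδ
  have hKpos : (0 : ℝ) < 10 ^ 13 * ((K : ℝ) + 1) := by positivity
  have hδ0 : 0 < δ := by
    rw [hδ]
    exact lt_min (by linarith) (by positivity)
  have hδ1 : δ ≤ p / 2 := min_le_left _ _
  have hδ2 : δ ≤ 1 / (10 ^ 13 * (K + 1)) := min_le_right _ _
  have hr0 : (0 : ℝ) ≤ p - δ := by linarith
  obtain ⟨p', hpp⟩ : ∃ p' : NNReal, (p' : ℝ) = p - δ := ⟨Real.toNNReal (p - δ), Real.coe_toNNReal _ hr0⟩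
  have hle : p' ≤ 1 := by
    rw [← NNReal.coe_le_coe, NNReal.coe_one, hpp]
    linarith
  refine ⟨p', hle, ?_, ?_⟩
  · rw [← NNReal.coe_lt_coe, hpp]
    linarith
  · intro u
    have hdep : DepOn (M.E (Geo.ctr t u false 0) (12 * t) : Set ι) (M.Good t u)ᶜ :=
      (Pool.Agent.W90.PD.good_dep M t u).compl
    have hc := h3 ι _ _ p p' hp hle hdep
    have hcard : ((M.E (Geo.ctr t u false 0) (12 * t)).card : ℝ) ≤ K := by
      exact_mod_cast M.card_E _ _
    have habs : |(p : ℝ) - p'| = δ := by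
      rw [hpp, sub_sub_cancel, abs_of_pos hδ0]
    rw [habs] at hc
    have h5 : ((M.E (Geo.ctr t u false 0) (12 * t)).card : ℝ) * δ ≤ 1 / 10 ^ 13 := by
      have h6 : ((M.E (Geo.ctr t u false 0) (12 * t)).card : ℝ) * δ ≤
          (K : ℝ) * (1 / (10 ^ 13 * (K + 1))) :=
        mul_le_mul hcard hδ2 hδ0.le (Nat.cast_nonneg _)
      refine h6.trans ?_
      rw [mul_one_div, div_le_div_iff₀ hKpos (by norm_num)]
      nlinarith [Nat.cast_nonneg (α := ℝ) K]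
    have h6 := hg u
    have h7 := (abs_le.1 hc).1
    have h8 : (1 : ℝ) / 10 ^ 13 + 1 / 10 ^ 13 ≤ 1 / 10 ^ 12 := by norm_num
    linarith

/-- pigeonhole for a property which is antitone in the radius -/
theorem pigeon {α : Type*} (F : Finset α) (P : α → ℕ → Prop) (hP : ∀ a m n, m ≤ n → P a n → P a m)
    (h : ∀ R, ∃ a ∈ F, P a R) : ∃ a ∈ F, ∀ R, P a R := by
  classical
  by_contra hcon
  push Not at hcon
  have hcon' : ∀ a : α, ∃ R, a ∈ F → ¬ P a R := by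
    intro a
    by_cases ha : a ∈ F
    · obtain ⟨R, hR⟩ := hcon a ha
      exact ⟨R, fun _ => hR⟩
    · exact ⟨0, fun h => absurd h ha⟩
  choose R hR using hcon'
  obtain ⟨a, ha, hPa⟩ := h (F.sup R)
  exact hR a ha (hP a _ _ (Finset.le_sup ha) hPa)

/-- points of far cells are far -/
theorem far_pt {d k : ℕ} {z v : Fin d → ℤ} {n : ℕ} (hz : z ∉ bx (0 : Fin d → ℤ) n)
    (hv : v ∈ bx (cc k z) k) : v ∉ bx (0 : Fin d → ℤ) n := by
  intro hv0
  apply hz
  rw [mem_bx] at *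
  intro i
  have h1 := hv i
  have h2 := hv0 i
  unfold cc at h1
  simp only [Pi.zero_apply, sub_zero] at h2 ⊢
  have hk : (0 : ℤ) ≤ k := Int.natCast_nonneg k
  by_contra hcon
  push Not at hcon
  have h3 : |(2 * (k : ℤ) + 1) * z i| = (2 * k + 1) * |z i| := by
    rw [abs_mul, abs_of_pos (by linarith)]
  have h4 : |(2 * (k : ℤ) + 1) * z i| ≤ |v i| + |v i - (2 * k + 1) * z i| := by
    have := abs_sub_abs_le_abs_sub ((2 * (k : ℤ) + 1) * z i) (v i)
    rw [abs_sub_comm] at this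
    linarith
  rw [h3] at h4
  have h5 : (n : ℤ) + 1 ≤ |z i| := hcon
  nlinarith

theorem cc_zero {d : ℕ} (k : ℕ) : cc k (0 : Fin d → ℤ) = 0 := by
  funext i
  unfold cc
  simp

theorem finB (h1 : S_main) (h2 : S_coarse) (h3 : S_cont) (h4 : S_instB) : S_finB := by
  classical
  intro d p hp hd hp0 hPol
  obtain ⟨A, hA1, hA⟩ := h4 d p hp (by omega) hp0 hPol
  obtain ⟨q0, hq0⟩ := h1 d hd
  refine ⟨50 * A + 6 + 200 * d * A, max 2 q0, fun k hk hvoid => ?_⟩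
  have hk2 : 2 ≤ k := le_trans (le_max_left _ _) hk
  have hkq : q0 ≤ k := le_trans (le_max_right _ _) hk
  obtain ⟨M, hMq, hMN, hME, hMF, hMU⟩ := hA k hk2
  have hqk : k ≤ k ^ A := by
    calc k = k ^ 1 := (pow_one k).symm
      _ ≤ k ^ A := Nat.pow_le_pow_right (by omega) hA1
  -- voids
  have hv : ∀ z : Fin d → ℤ, (bm _ p hp).real {ω | ∀ x ∈ M.U z, x ∉ M.cB z (8 * M.q ^ 50) ω} ≤
      1 / (M.q : ℝ) ^ (200 * d) := by
    intro z
    set R := rr k (8 * M.q ^ 50) with hR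
    set E0 : Set (Sym2 (Fin d → ℤ) → Bool) :=
      {ω | ∀ x ∈ bx (0 : Fin d → ℤ) k, x ∉ cl bN (bE 0 R) ω (sph 0 R : Finset (Fin d → ℤ))} with hE0
    have hdep : DepOn ((bE (0 : Fin d → ℤ) R : Finset _) : Set (Sym2 (Fin d → ℤ))) E0 := by
      intro ω ω' h
      rw [hE0]
      simp only [mem_setOf_eq]
      rw [cl_congr (fun i hi => h i hi)]
    have hEz : {ω | ∀ x ∈ M.U z, x ∉ M.cB z (8 * M.q ^ 50) ω} =
        {ω | rel (s2 (Equiv.addLeft (cc k z))) ω ∈ E0} := by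
      ext ω
      rw [hE0]
      simp only [mem_setOf_eq]
      unfold Geo.cB
      rw [hMN, hME, hMF, hMU, ← hR]
      have e1 : bE (cc k z) R = (bE 0 R).map (s2 (Equiv.addLeft (cc k z))).toEmbedding :=
        (bondH d).E_t (cc k z) R
      have e2 := sph_trans (cc k z) R
      rw [e1, e2]
      have e3 : ∀ v : Fin d → ℤ, (Equiv.addLeft (cc k z)) v ∈ bx (cc k z) k ↔ v ∈ bx 0 k := by
        intro v
        rw [mem_bx, mem_bx]
        simp
      constructor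
      · intro h x hx hcl
        exact h ((Equiv.addLeft (cc k z)) x) ((e3 x).2 hx) ((rel_cl (bN_iso _)).2 hcl)
      · intro h x hx hcl
        obtain ⟨y, rfl⟩ := (Equiv.addLeft (cc k z)).surjective x
        exact h y ((e3 y).1 hx) ((rel_cl (bN_iso _)).1 hcl)
    rw [hEz, bm_rel p hp _ hdep.measurable_fin]
    have hRle : R ≤ k ^ (50 * A + 6 + 200 * d * A) := by
      rw [hR, hMq]
      exact rad_le k A d hk2
    have hsub : E0 ⊆ VoidB d k (k ^ (50 * A + 6 + 200 * d * A)) := by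
      intro ω hω x hx y hy hreach
      have hcon := con_bond.2 hreach
      have hkR : k ≤ R := by
        rw [hR]
        unfold rr
        omega
      obtain ⟨f', hf', hc'⟩ := bond_exit 0 R 0 (k ^ (50 * A + 6 + 200 * d * A)) ω x y
        (bx_mono 0 hRle) (bx_mono 0 hkR hx) hy hcon
      exact hω x hx ⟨f', hf', hc'.symm⟩
    refine (measureReal_mono hsub (measure_ne_top _ _)).trans (hvoid.le.trans ?_)
    rw [hMq]
    exact prob_le k A d hk2
  have hgood := hq0 _ _ p hp M (by rw [hMq]; omega) hv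
  obtain ⟨p', hp', hlt, hg'⟩ := exists_lower h3 M.toGeo (M.q ^ 50) p hp hp0 hgood
  have ht : 1 ≤ M.q ^ 50 := Nat.one_le_pow _ _ (by have := M.q_pos; omega)
  have hco := h2 d _ _ M.toGeo (M.q ^ 50) p' hp' (by omega) ht hg'
  refine ⟨p', hp', hlt, ?_⟩
  have hsub : {ω : Sym2 (Fin d → ℤ) → Bool | ∀ R : ℕ, ∃ f ∈ M.F 0 (4 * M.q ^ 50), ∃ z, z ∉ bx 0 R ∧
      ∃ v ∈ M.U z, ∃ m, Con M.N (M.E 0 m) ω f v} ⊆ ⋃ f ∈ M.F 0 (4 * M.q ^ 50), InfB f := by
    intro ω hω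
    obtain ⟨f, hf, hfR⟩ := pigeon (M.F 0 (4 * M.q ^ 50)) (fun f R => ∃ z, z ∉ bx 0 R ∧
      ∃ v ∈ M.U z, ∃ m, Con M.N (M.E 0 m) ω f v) (by
        rintro a m n hmn ⟨z, hz, hrest⟩
        exact ⟨z, fun h => hz (bx_mono 0 hmn h), hrest⟩) hω
    rw [mem_iUnion₂]
    refine ⟨f, hf, ?_⟩
    show {y | (openB ω univ).Reachable f y}.Infinite
    rw [infinite_iff]
    intro n
    obtain ⟨z, hz, v, hv', m, hcon⟩ := hfR n
    rw [hMU] at hv'
    refine ⟨v, far_pt hz hv', ?_⟩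
    rw [hMN, hME, cc_zero] at hcon
    exact reach_univ_iff.2 ⟨_, hcon⟩
  have h5 := hco.trans ((measureReal_mono hsub (measure_ne_top _ _)).trans
    (measureReal_biUnion_finset_le _ _))
  have h6 : ∑ f ∈ M.F 0 (4 * M.q ^ 50), (bm _ p' hp').real (InfB f) =
      (M.F 0 (4 * M.q ^ 50)).card * (bm _ p' hp').real (InfB (0 : Fin d → ℤ)) := by
    rw [Finset.sum_congr rfl fun f _ => InfB_trans p' hp' f, Finset.sum_const, nsmul_eq_mul]
  rw [h6] at h5
  by_contra hcon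
  have h7 : (bm _ p' hp').real (InfB (0 : Fin d → ℤ)) = 0 :=
    le_antisymm (not_lt.1 hcon) measureReal_nonneg
  rw [h7] at h5
  norm_num at h5

end Pool.Agent.W597.PD
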