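import Pool.Agent.W805.LR.Stm6

/-! Project PD: parameters of the levels when the start is at a large scale. -/

set_option autoImplicit false

namespace Pool.Agent.W597.PD.L3

open Finset Pool.Agent.W805.PD Pool.Agent.W805.LR

theorem two_pow (x y : ℝ) (h : x ≤ y) : (2 : ℝ) ^ x ≤ 2 ^ y :=
  Real.rpow_le_rpow_of_exponent_le (by norm_num) h

theorem exp_neg_le {x : ℝ} (hx : 0 < x) : Real.exp (-x) ≤ 1 / x := by
  rw [Real.exp_neg, ← one_div]
  apply one_div_le_one_div_of_le hx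
  linarith [Real.add_one_le_exp x]

/-- second error term -/
theorem err2 (d : ℕ) (σ lam A δ0 γ a l : ℝ) (hd : 1 ≤ d) (hσ : 0 < σ) (hlam : 0 < lam)
    (hA : 0 < A) (hδ : 0 < δ0) (hl : 0 < l) (hγ : a / d = σ / d + 2 * γ) (k : ℕ) :
    lam * δ0 / (64 * d) * 2 ^ (-((d : ℝ) + σ)) * A * 2 ^ (γ * k) ≤
      1 * (lam / 4 * (l * 2 ^ (k / d + 1)) ^ (-((d : ℝ) + σ)) / d) *
        (A * l ^ σ * 2 ^ ((k : ℝ) * (a / d))) * (δ0 * 2 ^ (-(γ * k))) *
      (l * 2 ^ (k / d + 1) / 2) ^ d / (16 * 1) := by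
  have hD : (0 : ℝ) < d := by exact_mod_cast hd
  set m := k / d with hm
  have hm1 : (m : ℝ) * d ≤ k := by
    have := Nat.div_mul_le_self k d
    rw [← hm] at this
    exact_mod_cast this
  set B : ℝ := l * 2 ^ (m + 1) with hB
  have hB0 : 0 < B := by positivity
  have e1 : B ^ (-((d : ℝ) + σ)) * (B / 2) ^ d = B ^ (-σ) * 2 ^ (-(d : ℝ)) := by
    rw [div_pow, ← Real.rpow_natCast B d, ← Real.rpow_natCast 2 d, neg_add, Real.rpow_add hB0,
      Real.rpow_neg (by norm_num : (0 : ℝ) ≤ 2) (d : ℝ), Real.rpow_neg hB0.le (d : ℝ)]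
    have h1 : B ^ (d : ℝ) ≠ 0 := (Real.rpow_pos_of_pos hB0 _).ne'
    have h2 : (2 : ℝ) ^ (d : ℝ) ≠ 0 := (Real.rpow_pos_of_pos (by norm_num) _).ne'
    field_simp
  have e2 : l ^ σ * B ^ (-σ) = 2 ^ (-(σ * (m + 1))) := by
    have h1 : (2 : ℝ) ^ (m + 1) = 2 ^ ((m : ℝ) + 1) := by
      rw [← Real.rpow_natCast]; push_cast; rfl
    rw [hB, h1, Real.mul_rpow hl.le (by positivity), ← Real.rpow_mul (by norm_num),
      ← mul_assoc, ← Real.rpow_add hl, add_neg_cancel, Real.rpow_zero, one_mul]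
    congr 1
    ring
  have e3 : 1 * (lam / 4 * B ^ (-((d : ℝ) + σ)) / d) *
        (A * l ^ σ * 2 ^ ((k : ℝ) * (a / d))) * (δ0 * 2 ^ (-(γ * k))) * (B / 2) ^ d / (16 * 1) =
      lam * δ0 / (64 * d) * A * ((l ^ σ * B ^ (-σ)) * 2 ^ (-(d : ℝ)) *
        2 ^ ((k : ℝ) * (a / d)) * 2 ^ (-(γ * k))) := by
    calc _ = lam * δ0 / (64 * d) * A * (l ^ σ * (B ^ (-((d : ℝ) + σ)) * (B / 2) ^ d) *
        2 ^ ((k : ℝ) * (a / d)) * 2 ^ (-(γ * k))) := by ring
      _ = _ := by rw [e1]; ring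
  rw [e3, e2, ← Real.rpow_add (by norm_num), ← Real.rpow_add (by norm_num),
    ← Real.rpow_add (by norm_num)]
  have e4 : lam * δ0 / (64 * d) * 2 ^ (-((d : ℝ) + σ)) * A * 2 ^ (γ * k) =
      lam * δ0 / (64 * d) * A * 2 ^ (-((d : ℝ) + σ) + γ * k) := by
    rw [Real.rpow_add (by norm_num)]; ring
  rw [e4]
  apply mul_le_mul_of_nonneg_left _ (by positivity)
  apply two_pow
  have h1 : σ * m ≤ σ / d * k := by
    rw [div_mul_eq_mul_div, le_div_iff₀ hD]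
    nlinarith
  rw [hγ]
  nlinarith

/-- third error term -/
theorem err3 (d : ℕ) (σ lam A γ a l : ℝ) (hd : 1 ≤ d) (hσ : 0 < σ) (hlam : 0 < lam)
    (hA : 0 < A) (hl : 0 < l) (hγ : 0 < γ) (ha : 2 * (a / d) = 1 + σ / d - 4 * γ) (k : ℕ) :
    4 * 1 * (1 * (lam / 4 * (l * 2 ^ (k / d + 1)) ^ (-((d : ℝ) + σ)) / d)) *
      (A * l ^ σ * 2 ^ (((k + 1 : ℕ) : ℝ) * (a / d))) ^ 2 ≤
    lam / d * A ^ 2 * 2 ^ (2 * (a / d)) * l ^ (σ - d) * 2 ^ (-(γ * k)) := by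
  have hD : (0 : ℝ) < d := by exact_mod_cast hd
  set m := k / d with hm
  have hm1 : (k : ℝ) ≤ d * (m + 1) := by
    have := Nat.lt_mul_div_succ k (show 0 < d by omega)
    rw [← hm] at this
    exact_mod_cast this.le
  set B : ℝ := l * 2 ^ (m + 1) with hB
  have e1 : (2 : ℝ) ^ (m + 1) = 2 ^ ((m : ℝ) + 1) := by
    rw [← Real.rpow_natCast]; push_cast; rfl
  have e2 : B ^ (-((d : ℝ) + σ)) = l ^ (-((d : ℝ) + σ)) * 2 ^ (-(((d : ℝ) + σ) * (m + 1))) := by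
    rw [hB, e1, Real.mul_rpow hl.le (by positivity), ← Real.rpow_mul (by norm_num)]
    congr 2
    ring
  have e3 : (A * l ^ σ * 2 ^ (((k + 1 : ℕ) : ℝ) * (a / d))) ^ 2 =
      A ^ 2 * l ^ (2 * σ) * 2 ^ (2 * (a / d) * (k + 1)) := by
    rw [mul_pow, mul_pow, ← Real.rpow_natCast (l ^ σ), ← Real.rpow_mul hl.le,
      ← Real.rpow_natCast ((2 : ℝ) ^ (((k + 1 : ℕ) : ℝ) * (a / d))), ← Real.rpow_mul (by norm_num)]
    push_cast
    congr 2
    · congr 1; ring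
    · ring
  have e4 : l ^ (-((d : ℝ) + σ)) * l ^ (2 * σ) = l ^ (σ - d) := by
    rw [← Real.rpow_add hl]; congr 1; ring
  rw [e2, e3]
  have e5 : 4 * 1 * (1 * (lam / 4 * (l ^ (-((d : ℝ) + σ)) * 2 ^ (-(((d : ℝ) + σ) * (m + 1)))) / d)) *
      (A ^ 2 * l ^ (2 * σ) * 2 ^ (2 * (a / d) * (k + 1))) =
      lam / d * A ^ 2 * (l ^ (-((d : ℝ) + σ)) * l ^ (2 * σ)) *
        (2 ^ (-(((d : ℝ) + σ) * (m + 1))) * 2 ^ (2 * (a / d) * (k + 1))) := by ring
  rw [e5, e4, ← Real.rpow_add (by norm_num)]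
  have e6 : lam / d * A ^ 2 * 2 ^ (2 * (a / d)) * l ^ (σ - d) * 2 ^ (-(γ * k)) =
      lam / d * A ^ 2 * l ^ (σ - d) * 2 ^ (2 * (a / d) + -(γ * k)) := by
    rw [Real.rpow_add (by norm_num)]; ring
  rw [e6]
  apply mul_le_mul_of_nonneg_left _ (by positivity)
  apply two_pow
  have h1 : (1 + σ / d) * k ≤ ((d : ℝ) + σ) * (m + 1) := by
    have h2 : (1 + σ / d) = ((d : ℝ) + σ) / d := by field_simp
    rw [h2, div_mul_eq_mul_div, div_le_iff₀ hD]
    nlinarith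
  have hk : (0 : ℝ) ≤ k := by positivity
  have h3 : 2 * (a / d) * (k + 1) = 2 * (a / d) + (1 + σ / d) * k - 4 * γ * k := by
    rw [mul_add, mul_one, ha]; ring
  rw [h3]
  nlinarith [mul_nonneg hγ.le hk]

/-- the constraint -/
theorem cons (d : ℕ) (σ A δ0 γ a l : ℝ) (hd : 1 ≤ d) (hA : 0 < A)
    (hδ : 0 < δ0) (hl : 0 < l) (ha : a / d + γ ≤ 1)
    (hQ : A * 2 ^ (a / d + d) ≤ δ0 * l ^ ((d : ℝ) - σ)) (k : ℕ) :
    A * l ^ σ * 2 ^ (((k : ℝ) + 1) * (a / d)) ≤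
      δ0 * 2 ^ (-(γ * k)) * (l * 2 ^ (k / d + 1) / 2) ^ d / 2 := by
  have hD : (0 : ℝ) < d := by exact_mod_cast hd
  set m := k / d with hm
  have hm1 : (k : ℝ) + 1 ≤ d * (m + 1) := by
    have := Nat.lt_mul_div_succ k (show 0 < d by omega)
    rw [← hm] at this
    exact_mod_cast this
  have hk : (0 : ℝ) ≤ k := by positivity
  have e1 : (l * 2 ^ (m + 1) / 2) ^ d = l ^ (d : ℝ) * 2 ^ ((d : ℝ) * m) := by
    have h1 : l * 2 ^ (m + 1) / 2 = l * 2 ^ m := by rw [pow_succ]; ring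
    rw [h1, mul_pow, ← pow_mul, ← Real.rpow_natCast l, ← Real.rpow_natCast 2]
    congr 2
    push_cast
    ring
  rw [e1]
  have h2 : (2 : ℝ) ^ ((d : ℝ) * m) ≥ 2 ^ ((k : ℝ) - d + 1) := by
    apply two_pow; linarith
  have e3 : (2 : ℝ) ^ ((k : ℝ) - d + 1) = 2 * 2 ^ ((k : ℝ) - d) := by
    rw [Real.rpow_add (by norm_num), Real.rpow_one]; ring
  have h3 : δ0 * 2 ^ (-(γ * k)) * (l ^ (d : ℝ) * (2 * 2 ^ ((k : ℝ) - d))) / 2 ≤
      δ0 * 2 ^ (-(γ * k)) * (l ^ (d : ℝ) * 2 ^ ((d : ℝ) * m)) / 2 := by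
    rw [e3] at h2
    have := mul_le_mul_of_nonneg_left h2 (show 0 ≤ δ0 * 2 ^ (-(γ * k)) * l ^ (d : ℝ) by positivity)
    linarith
  refine le_trans ?_ h3
  have e4 : δ0 * 2 ^ (-(γ * k)) * (l ^ (d : ℝ) * (2 * 2 ^ ((k : ℝ) - d))) / 2 =
      (δ0 * l ^ ((d : ℝ) - σ)) * l ^ σ * (2 ^ (-(γ * k)) * 2 ^ ((k : ℝ) - d)) := by
    have : l ^ (d : ℝ) = l ^ ((d : ℝ) - σ) * l ^ σ := by
      rw [← Real.rpow_add hl]; congr 1; ring
    rw [this]; ring
  rw [e4, ← Real.rpow_add (by norm_num)]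
  have h5 : (A * 2 ^ (a / d + d)) * l ^ σ * 2 ^ (-(γ * k) + ((k : ℝ) - d)) ≤
      (δ0 * l ^ ((d : ℝ) - σ)) * l ^ σ * 2 ^ (-(γ * k) + ((k : ℝ) - d)) := by
    apply mul_le_mul_of_nonneg_right _ (by positivity)
    exact mul_le_mul_of_nonneg_right hQ (by positivity)
  refine le_trans ?_ h5
  have e6 : (A * 2 ^ (a / d + d)) * l ^ σ * 2 ^ (-(γ * k) + ((k : ℝ) - d)) =
      A * l ^ σ * 2 ^ ((a / d + d) + (-(γ * k) + ((k : ℝ) - d))) := by
    rw [Real.rpow_add (by norm_num) (a / d + d)]; ring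
  rw [e6]
  apply mul_le_mul_of_nonneg_left _ (by positivity)
  apply two_pow
  nlinarith [mul_le_mul_of_nonneg_right ha hk]

theorem main : S_levels3 := by
  intro d σ lam η hd hσ hσd hlam hη
  have hD : (0 : ℝ) < d := by exact_mod_cast hd
  set a : ℝ := ((d : ℝ) + 3 * σ) / 4 with ha
  set γ : ℝ := ((d : ℝ) - σ) / (8 * d) with hγ
  have hγ0 : 0 < γ := by
    rw [hγ]; apply div_pos <;> linarith
  have h1 : a / d = σ / d + 2 * γ := by
    rw [ha, hγ]; field_simp; ring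
  have h2 : 2 * (a / d) = 1 + σ / d - 4 * γ := by
    rw [ha, hγ]; field_simp; ring
  have h3 : a / d + γ ≤ 1 := by
    have : a / d + γ = (3 * d + 5 * σ) / (8 * d) := by
      rw [ha, hγ]; field_simp; ring
    rw [this, div_le_one (by positivity)]
    linarith
  set x : ℝ := 2 ^ (-γ) with hx
  have hx0 : 0 < x := by positivity
  have hx1 : x < 1 := by
    rw [hx]
    exact Real.rpow_lt_one_of_one_lt_of_neg (by norm_num) (by linarith)
  set S : ℝ := 1 / (1 - x) with hS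
  have hS0 : 0 < S := by
    rw [hS]; apply one_div_pos.2; linarith
  have hgeo : ∀ n : ℕ, ∑ k ∈ range n, (2 : ℝ) ^ (-(γ * k)) ≤ S := by
    intro n
    have e1 : ∀ k : ℕ, (2 : ℝ) ^ (-(γ * k)) = x ^ k := by
      intro k
      rw [hx, ← Real.rpow_natCast, ← Real.rpow_mul (by norm_num)]
      congr 1; ring
    simp only [e1]
    have h5 := geom_sum_mul_neg x n
    rw [hS, le_div_iff₀ (by linarith), h5]
    have := pow_nonneg hx0.le n
    linarith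
  clear_value S
  set δ0 : ℝ := η / (6 * S) with hδ0
  have hδ0' : 0 < δ0 := by positivity
  set c : ℝ := lam * δ0 / (64 * d) * 2 ^ (-((d : ℝ) + σ)) with hc
  have hc0 : 0 < c := by positivity
  set A : ℝ := max 1 (3 * S / (c * η)) with hA
  have hA1 : 1 ≤ A := le_max_left _ _
  have hA0 : 0 < A := by linarith
  have hA2 : 3 * S / (c * η) ≤ A := le_max_right _ _
  set T : ℝ := lam / d * A ^ 2 * 2 ^ (2 * (a / d)) with hT
  have hT0 : 0 < T := by positivity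
  set Q : ℝ := A * 2 ^ (a / d + d) / δ0 + 3 * T * S / η with hQ
  have hQ0 : 0 < Q := by positivity
  have hds : 0 < (d : ℝ) - σ := by linarith
  refine ⟨a, A, max 2 (Q ^ (1 / ((d : ℝ) - σ))), fun k => δ0 * 2 ^ (-(γ * k)), ?_, ?_, hA1,
    le_max_left _ _, fun k => by positivity, ?_⟩
  · rw [ha]; linarith
  · rw [ha]; linarith
  intro l hl
  have hl2 : 2 ≤ l := (le_max_left _ _).trans hl
  have hl0 : 0 < l := by linarith
  have hlQ : Q ≤ l ^ ((d : ℝ) - σ) := by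
    have h5 : Q ^ (1 / ((d : ℝ) - σ)) ≤ l := (le_max_right _ _).trans hl
    have h6 := Real.rpow_le_rpow (by positivity) h5 hds.le
    rw [← Real.rpow_mul hQ0.le, one_div, inv_mul_cancel₀ hds.ne', Real.rpow_one] at h6
    exact h6
  have hlσ : l ^ (σ - d) = 1 / l ^ ((d : ℝ) - σ) := by
    rw [one_div, ← Real.rpow_neg hl0.le]; congr 1; ring
  have hlp : 0 < l ^ ((d : ℝ) - σ) := Real.rpow_pos_of_pos hl0 _
  refine ⟨?_, ?_⟩
  · intro k
    refine cons d σ A δ0 γ a l hd hA0 hδ0' hl0 h3 ?_ k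
    have h5 : A * 2 ^ (a / d + d) / δ0 ≤ l ^ ((d : ℝ) - σ) := by
      refine le_trans ?_ hlQ
      rw [hQ]
      have : 0 ≤ 3 * T * S / η := by positivity
      linarith
    rw [div_le_iff₀ hδ0'] at h5
    linarith
  · intro n
    have hterm : ∀ k ∈ range n, lvlErr2 d σ lam 1 1 l (fun k => δ0 * 2 ^ (-(γ * k)))
        (fun k => A * l ^ σ * 2 ^ ((k : ℝ) * (a / d))) k ≤
        (2 * δ0 + 1 / (c * A) + T * l ^ (σ - d)) * 2 ^ (-(γ * k)) := by
      intro k _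
      unfold lvlErr2
      have k2 := err2 d σ lam A δ0 γ a l hd hσ hlam hA0 hδ0' hl0 h1 k
      have k3 := err3 d σ lam A γ a l hd hσ hlam hA0 hl0 hγ0 h2 k
      have k4 : Real.exp (-(1 * (lam / 4 * (l * 2 ^ (k / d + 1)) ^ (-((d : ℝ) + σ)) / d) *
          (A * l ^ σ * 2 ^ ((k : ℝ) * (a / d))) * (δ0 * 2 ^ (-(γ * k))) *
          (l * 2 ^ (k / d + 1) / 2) ^ d / (16 * 1))) ≤ 1 / (c * A) * 2 ^ (-(γ * k)) := by
        rw [← hc] at k2
        have k5 := Real.exp_le_exp.2 (neg_le_neg k2)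
        refine k5.trans ((exp_neg_le (by positivity)).trans (le_of_eq ?_))
        rw [Real.rpow_neg (by norm_num)]
        field_simp
      have k6 : T * l ^ (σ - d) * 2 ^ (-(γ * k)) = lam / d * A ^ 2 * 2 ^ (2 * (a / d)) *
          l ^ (σ - d) * 2 ^ (-(γ * k)) := by rw [hT]
      have e : (2 * δ0 + 1 / (c * A) + T * l ^ (σ - d)) * 2 ^ (-(γ * k)) =
          2 * (δ0 * 2 ^ (-(γ * k))) + 1 / (c * A) * 2 ^ (-(γ * k)) +
          T * l ^ (σ - d) * 2 ^ (-(γ * k)) := by ring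
      rw [e, k6]
      exact add_le_add (add_le_add le_rfl k4) k3
    refine (sum_le_sum hterm).trans ?_
    rw [← mul_sum]
    refine (mul_le_mul_of_nonneg_left (hgeo n) (by positivity)).trans ?_
    have g1 : 2 * δ0 * S = η / 3 := by
      rw [hδ0]; field_simp; ring
    have g2 : 1 / (c * A) * S ≤ η / 3 := by
      rw [div_le_iff₀ (by positivity)] at hA2
      rw [div_mul_eq_mul_div, one_mul, div_le_div_iff₀ (by positivity) (by norm_num)]
      linarith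
    have g3 : T * l ^ (σ - d) * S ≤ η / 3 := by
      rw [hlσ]
      have h5 : 3 * T * S / η ≤ l ^ ((d : ℝ) - σ) := by
        refine le_trans ?_ hlQ
        rw [hQ]
        have : 0 ≤ A * 2 ^ (a / d + d) / δ0 := by positivity
        linarith
      rw [div_le_iff₀ hη] at h5
      rw [mul_one_div, div_mul_eq_mul_div, div_le_div_iff₀ hlp (by norm_num)]
      linarith
    calc (2 * δ0 + 1 / (c * A) + T * l ^ (σ - d)) * S = 2 * δ0 * S + 1 / (c * A) * S +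
          T * l ^ (σ - d) * S := by ring
      _ ≤ η := by linarith

end Pool.Agent.W597.PD.L3
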